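import Pool.Agent.Lib.MP_a300b0_lc.Final

/-! GCNF in DAG form does not p-simulate resolution: a superpolynomial size separation. -/

open Pool.Agent.Lib.MP_a300b0_lc

theorem Pool.Agent.Results.MP_a300b0_lc.Separation.result (p : Polynomial ℕ) :
    ∃ (S : Finset (Finset (ℕ × Bool))) (R : List (Finset (ℕ × Bool))),
      ∅ ∉ S ∧ IsResRefutation R S ∧ (∃ P, IsGCNFRefutation P S) ∧
        ∀ P, IsGCNFRefutation P S → p.eval (inputBits S R) < litCount P :=
  separation p
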